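import Mathlib

set_option autoImplicit false
open Finset SimpleGraph

namespace Pool.Agent.Results.MP_509871_co.NotVT

/-- Every maximal clique meets every maximal stable set. -/
def CIS {V : Type} (G : SimpleGraph V) : Prop :=
  ∀ C S : Set V, Maximal G.IsClique C → Maximal G.IsIndepSet S → (C ∩ S).Nonempty

/-- All maximal stable sets have the same size. -/
def WellCovered {V : Type} (G : SimpleGraph V) : Prop :=
  ∀ S T : Set V, Maximal G.IsIndepSet S → Maximal G.IsIndepSet T → S.ncard = T.ncard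

/-- Distinct vertices have distinct neighbourhoods. -/
def Irreducible {V : Type} (G : SimpleGraph V) : Prop :=
  ∀ u v, u ≠ v → G.neighborSet u ≠ G.neighborSet v

def VertexTransitive {V : Type} (G : SimpleGraph V) : Prop := ∀ u v, ∃ f : G ≃g G, f u = v

variable {V W : Type}

def lex (G : SimpleGraph V) (H : SimpleGraph W) : SimpleGraph (V × W) where
  Adj a b := G.Adj a.1 b.1 ∨ a.1 = b.1 ∧ H.Adj a.2 b.2
  symm := ⟨fun _ _ h => h.imp G.adj_symm fun h => ⟨h.1.symm, h.2.symm⟩⟩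
  loopless := ⟨fun _ h => h.elim (G.irrefl) fun h => H.irrefl h.2⟩

theorem ladj (G : SimpleGraph V) (H : SimpleGraph W) (a b : V × W) :
    (lex G H).Adj a b ↔ G.Adj a.1 b.1 ∨ a.1 = b.1 ∧ H.Adj a.2 b.2 := .rfl

theorem lex_compl (G : SimpleGraph V) (H : SimpleGraph W) : (lex G H)ᶜ = lex Gᶜ Hᶜ := by
  ext ⟨a, x⟩ ⟨b, y⟩
  by_cases h : a = b <;> simp [ladj, h]

def MC (G : SimpleGraph V) (S : Finset V) : Prop :=
  (∀ u ∈ S, ∀ v ∈ S, u ≠ v → G.Adj u v) ∧ ∀ v ∉ S, ∃ u ∈ S, ¬ G.Adj u v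

instance [Fintype V] [DecidableEq V] (G : SimpleGraph V) [DecidableRel G.Adj] (S : Finset V) :
    Decidable (MC G S) := by unfold MC; infer_instance

theorem mc [Fintype V] {G : SimpleGraph V} {S : Set V} (h : Maximal G.IsClique S) :
    ∃ T : Finset V, S = T ∧ MC G T := by
  lift S to Finset V using S.toFinite
  refine ⟨S, rfl, fun u hu v hv e => h.prop hu hv e, fun v hv => ?_⟩
  by_contra! c
  exact hv (h.le_of_ge (y := insert v (S : Set V)) (h.prop.insert fun u hu _ => (c u hu).symm)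
    (Set.subset_insert _ _) (Set.mem_insert _ _))

def Good (G : SimpleGraph V) (w a : ℕ) : Prop :=
  (∀ S, MC G S → S.card = w ∧ ∀ T, MC Gᶜ T → ∃ v ∈ S, v ∈ T) ∧ ∀ T, MC Gᶜ T → T.card = a

theorem split [Fintype W] [DecidableEq V] [DecidableEq W] {G : SimpleGraph V} {H : SimpleGraph W}
    (y : W) {S : Finset (V × W)} (h : MC (lex G H) S) : MC G (S.image Prod.fst) ∧
    (∀ a ∈ S.image Prod.fst, MC H (univ.filter fun x => (a, x) ∈ S)) ∧
    S.card = ∑ a ∈ S.image Prod.fst, (univ.filter fun x => (a, x) ∈ S).card := by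
  refine ⟨⟨?_, fun v hv => ?_⟩, fun a ha => ⟨fun u hu v hv e => ?_, fun v hv => ?_⟩, ?_⟩
  · simp only [mem_image]
    rintro _ ⟨u, hu, rfl⟩ _ ⟨v, hv, rfl⟩ e
    exact (h.1 u hu v hv fun x => e (x ▸ rfl)).resolve_right fun x => e x.1
  · obtain ⟨u, hu, e⟩ := h.2 (v, y) fun x => hv (mem_image_of_mem _ x)
    exact ⟨u.1, mem_image_of_mem _ hu, fun x => e (.inl x)⟩
  · simpa [ladj] using h.1 (a, u) (by simpa using hu) (a, v) (by simpa using hv) (by simpa using e)
  · obtain ⟨u, hu, e⟩ := h.2 (a, v) (by simpa using hv)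
    obtain ⟨z, hz, rfl⟩ := mem_image.mp ha
    by_cases c : u.1 = z.1
    · exact ⟨u.2, by simp [← c, hu], fun x => e (.inr ⟨c, x⟩)⟩
    · exact (e (.inl ((h.1 u hu z hz fun x => c (x ▸ rfl)).resolve_right fun x => c x.1))).elim
  · rw [card_eq_sum_card_image Prod.fst]
    refine sum_congr rfl fun a _ => card_bij (fun x _ => x.2) ?_ ?_ ?_ <;>
      simp +contextual [Prod.ext_iff]
    rintro _ _ h rfl; exact h

theorem good [Fintype W] [DecidableEq V] [DecidableEq W] {G : SimpleGraph V} {H : SimpleGraph W}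
    (y : W) {w a w' a' : ℕ} (h : Good G w a) (h' : Good H w' a') :
    Good (lex G H) (w * w') (a * a') := by
  rw [Good, lex_compl]
  refine ⟨fun S hS => ⟨?_, fun T hT => ?_⟩, fun T hT => ?_⟩
  · obtain ⟨p, q, r⟩ := split y hS
    rw [r, sum_congr rfl fun a ha => (h'.1 _ (q a ha)).1, sum_const, (h.1 _ p).1, smul_eq_mul]
  · obtain ⟨p, q, -⟩ := split y hS
    obtain ⟨p', q', -⟩ := split y hT
    obtain ⟨v, v1, v2⟩ := (h.1 _ p).2 _ p'
    obtain ⟨x, x1, x2⟩ := (h'.1 _ (q v v1)).2 _ (q' v v2)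
    exact ⟨(v, x), by simpa using x1, by simpa using x2⟩
  · obtain ⟨p, q, r⟩ := split y hT
    rw [r, sum_congr rfl fun a ha => h'.2 _ (q a ha), sum_const, h.2 _ p, smul_eq_mul]

theorem irr {G : SimpleGraph V} {H : SimpleGraph W} (h : Irreducible H) (h1 : ∀ x, ∃ y, H.Adj x y) :
    Irreducible (lex G H) := by
  rintro ⟨a, x⟩ ⟨b, y⟩ e c
  have c := fun z => Set.ext_iff.mp c z
  simp only [mem_neighborSet, ladj] at c
  by_cases ab : a = b
  · subst ab
    exact h x y (by simpa using e) (Set.ext fun z => by simpa using c (a, z))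
  · obtain ⟨z, hz⟩ := h1 x
    have := c (a, z)
    have := c (a, x)
    simp_all [eq_comm]

theorem conn {G : SimpleGraph V} {H : SimpleGraph W} (y : V × W)
    (h : ∀ a b, ∃ c, G.Adj a c ∧ G.Adj c b) : (lex G H).Connected := by
  have : Nonempty (V × W) := ⟨y⟩
  refine ⟨fun u v => ?_⟩
  obtain ⟨c, p, q⟩ := h u.1 v.1
  exact (Adj.reachable (v := (c, y.2)) (Or.inl p)).trans (Adj.reachable (Or.inl q))

theorem reg [Fintype V] [Fintype W] {G : SimpleGraph V} {H : SimpleGraph W} {d e : ℕ}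
    (h : ∀ v, (G.neighborSet v).ncard = d) (h' : ∀ v, (H.neighborSet v).ncard = e) (v : V × W) :
    ((lex G H).neighborSet v).ncard = d * Fintype.card W + e := by
  rw [show (lex G H).neighborSet v = G.neighborSet v.1 ×ˢ Set.univ ∪ {v.1} ×ˢ H.neighborSet v.2 by
    ext; simp [ladj, eq_comm], Set.ncard_union_eq (Set.disjoint_left.mpr (by simp +contextual [(G.ne_of_adj · |>.symm)])),
    Set.ncard_prod, Set.ncard_prod, h, h']
  simp

def R : SimpleGraph (Fin 9) := fromRel fun a b => a.1 / 3 = b.1 / 3 ∨ a.1 % 3 = b.1 % 3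

def K : SimpleGraph (Fin 6) := fromRel fun a b => a.1 % 3 ≠ b.1 % 3

instance : DecidableRel R.Adj := fun _ _ => by unfold R; simp only [fromRel_adj]; infer_instance
instance : DecidableRel K.Adj := fun _ _ => by unfold K; simp only [fromRel_adj]; infer_instance

def H : SimpleGraph (Fin 9 ⊕ Fin 6) := R ⊕g K

instance : DecidableRel H.Adj := fun a b =>
  match a, b with
  | .inl a, .inl b => inferInstanceAs (Decidable (R.Adj a b))
  | .inr a, .inr b => inferInstanceAs (Decidable (K.Adj a b))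
  | .inl _, .inr _ => isFalse (by simp [H])
  | .inr _, .inl _ => isFalse (by simp [H])

theorem gR : Good R 3 3 := by unfold Good; decide +kernel

set_option synthInstance.maxSize 2000 in
theorem gH : Good H 3 5 := by
  have a : ∀ S : Finset (Fin 9), (∀ u ∈ S, ∀ v ∈ S, u ≠ v → H.Adj (.inl u) (.inl v)) →
      ∀ S' : Finset (Fin 6), MC H (S.disjSum S') → (S.disjSum S').card = 3 ∧
      ∀ T : Finset (Fin 9), (∀ u ∈ T, ∀ v ∈ T, u ≠ v → Hᶜ.Adj (.inl u) (.inl v)) →
      ∀ T' : Finset (Fin 6), MC Hᶜ (T.disjSum T') → (T.disjSum T').card = 5 ∧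
        ∃ v ∈ S.disjSum S', v ∈ T.disjSum T' := by decide +kernel
  have b := fun S (h : MC H S) => a S.toLeft (fun u hu v hv e => h.1 _ (by simpa using hu) _
    (by simpa using hv) (by simpa using e)) S.toRight (by rwa [toLeft_disjSum_toRight])
  have c := fun S h T (h' : MC Hᶜ T) => (b S h).2 T.toLeft (fun u hu v hv e => h'.1 _
    (by simpa using hu) _ (by simpa using hv) (by simpa using e)) T.toRight
    (by rwa [toLeft_disjSum_toRight])
  simp only [toLeft_disjSum_toRight] at b c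
  exact ⟨fun S h => ⟨(b S h).1, fun T h' => (c S h T h').2⟩,
    fun T h' => (c {.inl 0, .inl 1, .inl 2} (by decide +kernel) T h').1⟩

theorem result : ∃ (V : Type) (_ : Fintype V) (G : SimpleGraph V),
    (∃ d, ∀ v, (G.neighborSet v).ncard = d) ∧ CIS G ∧ G.Connected ∧ Gᶜ.Connected ∧
    WellCovered G ∧ WellCovered Gᶜ ∧ Irreducible G ∧ Irreducible Gᶜ ∧ ¬ VertexTransitive G := by
  have g := good 0 (good (.inl 0) gR gH) gR
  have nc : ∀ {V : Type} [Fintype V] (G : SimpleGraph V) [DecidableRel G.Adj] (v : V),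
      (G.neighborSet v).ncard = G.degree v := fun G _ v => by
    rw [Set.ncard_eq_toFinset_card']; rfl
  have ir : ∀ {V : Type} [Fintype V] (G : SimpleGraph V) [DecidableRel G.Adj],
      (∀ u v, (∀ z, G.Adj u z ↔ G.Adj v z) → u = v) → Irreducible G :=
    fun G _ h u v e c => e (h u v fun z => Set.ext_iff.mp c z)
  have cn : ∀ {G : SimpleGraph (Fin 9)} (H' : SimpleGraph (Fin 9 ⊕ Fin 6)),
      (∀ a b, ∃ c, G.Adj a c ∧ G.Adj c b) → ∀ a b, ∃ c, (lex G H').Adj a c ∧ (lex G H').Adj c b :=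
    fun _ h a b => (h a.1 b.1).elim fun c h => ⟨(c, a.2), .inl h.1, .inl h.2⟩
  refine ⟨_, inferInstance, lex (lex R H) R, ⟨_, reg (reg (d := 4) (e := 4) ?_ ?_) (e := 4) ?_⟩,
    fun C S hC hS => ?_, conn ((0, .inl 0), 0) (cn _ (by decide +kernel)), ?_,
    fun S T hS hT => ?_, fun S T hS hT => ?_, irr (ir _ (by decide +kernel)) (by decide +kernel),
    ?_, fun vt => ?_⟩
  · simp only [nc]; decide +kernel
  · simp only [nc]; decide +kernel
  · simp only [nc]; decide +kernel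
  · obtain ⟨C, rfl, kC⟩ := mc hC
    obtain ⟨S, rfl, kS⟩ := mc (G := (lex (lex R H) R)ᶜ) (S := S) (by simpa [Maximal] using hS)
    exact ((g.1 C kC).2 S kS).imp fun _ h => h
  · rw [lex_compl, lex_compl]; exact conn ((0, .inl 0), 0) (cn _ (by decide +kernel))
  · obtain ⟨T, rfl, kT⟩ := mc (G := (lex (lex R H) R)ᶜ) (S := T) (by simpa [Maximal] using hT)
    obtain ⟨S, rfl, kS⟩ := mc (G := (lex (lex R H) R)ᶜ) (S := S) (by simpa [Maximal] using hS)
    simp [g.2 _ kS, g.2 _ kT]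
  · obtain ⟨T, rfl, kT⟩ := mc (G := lex (lex R H) R) (S := T) (by simpa [Maximal] using hT)
    obtain ⟨S, rfl, kS⟩ := mc (G := lex (lex R H) R) (S := S) (by simpa [Maximal] using hS)
    simp [(g.1 _ kS).1, (g.1 _ kT).1]
  · rw [lex_compl]; exact irr (ir _ (by decide +kernel)) (by decide +kernel)
  · obtain ⟨f, hf⟩ := vt ((0, .inr 0), 0) ((0, .inl 0), 0)
    have k : ∀ u, u ≠ ((0, Sum.inl 0), 0) → ∃ x y, (lex (lex R H) R).Adj u x ∧
        ¬ (lex (lex R H) R).Adj ((0, .inl 0), 0) x ∧ (lex (lex R H) R).Adj x y ∧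
        ((lex (lex R H) R).Adj ((0, .inl 0), 0) y ∧ ¬ (lex (lex R H) R).Adj u y ∨
         ∃ z, (lex (lex R H) R).Adj x z ∧ (lex (lex R H) R).Adj y z ∧
          (lex (lex R H) R).Adj u y ∧ ¬ (lex (lex R H) R).Adj ((0, .inl 0), 0) y ∧
          (lex (lex R H) R).Adj u z ∧ ¬ (lex (lex R H) R).Adj ((0, .inl 0), 0) z) := by
      rintro ⟨⟨a, h⟩, b⟩ e
      have r : ∀ a : Fin 9, a ≠ 0 → ∃ x y, x ≠ 0 ∧ y ≠ a ∧ R.Adj a x ∧ ¬ R.Adj 0 x ∧ R.Adj x y ∧
        R.Adj 0 y ∧ ¬ R.Adj a y := by decide +kernel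
      by_cases a0 : a = 0
      · subst a0
        rcases h with h | h
        · by_cases h0 : h = 0
          · subst h0
            obtain ⟨x, y, -, -, p⟩ := r b (by simpa using e)
            exact ⟨((0, .inl 0), x), ((0, .inl 0), y), by simp [ladj, p]⟩
          · obtain ⟨x, y, p⟩ := r h h0
            exact ⟨((0, .inl x), 0), ((0, .inl y), 0), by simp [ladj, H, p, p.1.symm, p.2.1.symm]⟩
        · obtain ⟨x, p⟩ := (by decide +kernel : ∀ h, ∃ x, K.Adj h x) h
          refine ⟨((0, .inr x), 0), ((0, .inr x), 1), by simp [ladj, H, p], by simp [ladj, H],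
            .inr ⟨rfl, (by decide : R.Adj 0 1)⟩, .inr ⟨((0, .inr x), 2),
              .inr ⟨rfl, (by decide : R.Adj 0 2)⟩, .inr ⟨rfl, (by decide : R.Adj 1 2)⟩, by simp [ladj, H, p]⟩⟩
      · obtain ⟨x, y, p⟩ := r a a0
        exact ⟨((x, .inl 0), 0), ((y, .inl 0), 0), by simp [ladj, H, p, p.1.symm, p.2.1.symm]⟩
    obtain ⟨x, y, p⟩ := k (f ((0, .inr 3), 0)) (by rw [← hf]; simp)
    obtain ⟨x, rfl⟩ := f.surjective x
    obtain ⟨y, rfl⟩ := f.surjective y
    rw [← hf, f.surjective.exists] at p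
    simp only [f.map_adj_iff] at p
    have t : ∀ h, H.Adj (.inr 3) h ↔ H.Adj (.inr 0) h := by decide +kernel
    have m : ∀ x : (Fin 9 × (Fin 9 ⊕ Fin 6)) × Fin 9, (lex (lex R H) R).Adj ((0, .inr 3), 0) x →
        ¬ (lex (lex R H) R).Adj ((0, .inr 0), 0) x → x.1 = (0, .inr 3) ∧ R.Adj 0 x.2 := by
      intro x a b; simp only [ladj, t] at a b
      rcases a with a | a
      exacts [(b (.inl a)).elim, ⟨a.1.symm, a.2⟩]
    have m' : ∀ x : (Fin 9 × (Fin 9 ⊕ Fin 6)) × Fin 9, (lex (lex R H) R).Adj ((0, .inr 0), 0) x →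
        ¬ (lex (lex R H) R).Adj ((0, .inr 3), 0) x → x.1 = (0, .inr 0) := by
      intro x a b; simp only [ladj, t] at a b
      rcases a with a | a
      exacts [(b (.inl a)).elim, a.1.symm]
    obtain ⟨p1, p2, p3, ⟨p4, p5⟩ | ⟨z, p4, p5, p6, p7, p8, p9⟩⟩ := p
    · rw [ladj, (m _ p1 p2).1, m' _ p4 p5] at p3
      simp [ladj, t] at p3
    · obtain ⟨a1, a2⟩ := m _ p1 p2
      obtain ⟨b1, b2⟩ := m _ p6 p7
      obtain ⟨c1, c2⟩ := m _ p8 p9
      have : ∀ x y z, R.Adj 0 x → R.Adj 0 y → R.Adj 0 z → R.Adj x y → R.Adj x z → ¬ R.Adj y z := by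
        decide +kernel
      simp only [ladj, a1, b1, c1, SimpleGraph.irrefl, false_or, true_and] at p3 p4 p5
      exact this _ _ _ a2 b2 c2 p3 p4 p5

end Pool.Agent.Results.MP_509871_co.NotVT
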